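import Pool.Agent.K7.H47.DM.Stm4

set_option autoImplicit false

namespace Pool.Agent.K7.H84.D4

open Pool.Agent.K7.H47.DM4 Finset

theorem key {ι : Type} [Fintype ι] [DecidableEq ι] (t j cl : ι → ℕ) (ht : Function.Injective t)
    (σ σ' : Equiv.Perm ι) (h1 : Feas t j σ) (h2 : Feas t j σ')
    (h3 : ∀ τ, Feas t j τ → Wt t cl τ ≤ Wt t cl σ) (r : ι)
    (hr : ∀ r', t r' < t r → cl (σ.symm r') = cl (σ'.symm r')) :
    ¬ cl (σ'.symm r) < cl (σ.symm r) := by
  intro hlt
  obtain ⟨κ, hκ⟩ : ∃ κ, κ = cl (σ'.symm r) := ⟨_, rfl⟩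
  rw [← hκ] at hlt
  obtain ⟨x, hx1, hx2, hx3⟩ : ∃ x, cl x = κ ∧ t (σ' x) ≤ t r ∧ t r < t (σ x) := by
    by_contra hno
    have hno' : ∀ x, cl x = κ → t (σ' x) ≤ t r → t (σ x) ≤ t r := by
      intro x a b
      by_contra c
      exact hno ⟨x, a, b, not_le.1 c⟩
    obtain ⟨S', hS'⟩ : ∃ S' : Finset ι, S' = univ.filter (fun c => cl c = κ ∧ t (σ' c) ≤ t r) :=
      ⟨_, rfl⟩
    obtain ⟨S, hS⟩ : ∃ S : Finset ι, S = univ.filter (fun c => cl c = κ ∧ t (σ c) ≤ t r) :=
      ⟨_, rfl⟩
    have hsub : S' ⊆ S := by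
      intro c hc
      rw [hS', mem_filter] at hc
      rw [hS, mem_filter]
      exact ⟨hc.1, hc.2.1, hno' c hc.2.1 hc.2.2⟩
    have hTT : S.image σ ⊂ S'.image σ' := by
      rw [Finset.ssubset_iff_of_subset]
      · refine ⟨r, ?_, ?_⟩
        · rw [mem_image]
          refine ⟨σ'.symm r, ?_, σ'.apply_symm_apply r⟩
          rw [hS', mem_filter]
          refine ⟨mem_univ _, hκ.symm, ?_⟩
          rw [σ'.apply_symm_apply]
        · intro hmem
          rw [mem_image] at hmem
          obtain ⟨c, hc, hcr⟩ := hmem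
          rw [hS, mem_filter] at hc
          have e : σ.symm r = c := by rw [← hcr, σ.symm_apply_apply]
          rw [e] at hlt
          omega
      · intro r' hr'
        rw [mem_image] at hr'
        obtain ⟨c, hc, hcr⟩ := hr'
        rw [hS, mem_filter] at hc
        have e : σ.symm r' = c := by rw [← hcr, σ.symm_apply_apply]
        rw [hcr] at hc
        have hne : t r' ≠ t r := by
          intro h
          have h' := ht h
          rw [h'] at e
          rw [e] at hlt
          omega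
        have h4 := hr r' (lt_of_le_of_ne hc.2.2 hne)
        rw [e] at h4
        rw [mem_image]
        refine ⟨σ'.symm r', ?_, σ'.apply_symm_apply r'⟩
        rw [hS', mem_filter]
        refine ⟨mem_univ _, h4.symm.trans hc.2.1, ?_⟩
        rw [σ'.apply_symm_apply]
        exact hc.2.2
    have hc1 := card_lt_card hTT
    rw [card_image_of_injective _ σ.injective, card_image_of_injective _ σ'.injective] at hc1
    have hc2 := card_le_card hsub
    omega
  obtain ⟨y, hy⟩ : ∃ y, y = σ.symm r := ⟨_, rfl⟩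
  rw [← hy] at hlt
  have hσy : σ y = r := by rw [hy, σ.apply_symm_apply]
  have hxy : x ≠ y := fun h => by rw [h] at hx1; omega
  obtain ⟨τ, hτ⟩ : ∃ τ : Equiv.Perm ι, τ = (Equiv.swap x y).trans σ := ⟨_, rfl⟩
  have hτx : τ x = r := by rw [hτ, Equiv.trans_apply, Equiv.swap_apply_left, hσy]
  have hτy : τ y = σ x := by rw [hτ, Equiv.trans_apply, Equiv.swap_apply_right]
  have hτc : ∀ c, c ≠ x → c ≠ y → τ c = σ c := fun c h h' => by
    rw [hτ, Equiv.trans_apply, Equiv.swap_apply_of_ne_of_ne h h']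
  have hF : Feas t j τ := by
    intro c
    by_cases h : c = x
    · rw [h, hτx]
      exact (h2 x).trans hx2
    · by_cases h' : c = y
      · rw [h', hτy]
        have := h1 y
        rw [hσy] at this
        omega
      · rw [hτc c h h']
        exact h1 c
  have hW := h3 τ hF
  unfold Wt at hW
  rw [← Finset.add_sum_erase univ _ (mem_univ x),
    ← Finset.add_sum_erase (univ.erase x) _ (mem_erase.2 ⟨hxy.symm, mem_univ y⟩),
    ← Finset.add_sum_erase univ (fun c => cl c * t (σ c)) (mem_univ x),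
    ← Finset.add_sum_erase (univ.erase x) (fun c => cl c * t (σ c))
      (mem_erase.2 ⟨hxy.symm, mem_univ y⟩)] at hW
  have hrest : ∑ c ∈ (univ.erase x).erase y, cl c * t (τ c) =
      ∑ c ∈ (univ.erase x).erase y, cl c * t (σ c) := by
    refine sum_congr rfl fun c hc => ?_
    rw [mem_erase, mem_erase] at hc
    rw [hτc c hc.2.1 hc.1]
  rw [hrest, hτx, hτy, hσy] at hW
  obtain ⟨a, ha⟩ : ∃ a, cl y = cl x + (a + 1) := ⟨cl y - cl x - 1, by omega⟩
  obtain ⟨b, hb⟩ : ∃ b, t (σ x) = t r + (b + 1) := ⟨t (σ x) - t r - 1, by omega⟩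
  rw [ha, hb] at hW
  nlinarith [Nat.zero_le (a * b)]

theorem u : StU := by
  intro ι _ _ t j cl ht σ σ' h1 h2 h3 h4
  suffices H : ∀ (n : ℕ) (r : ι), t r = n → cl (σ.symm r) = cl (σ'.symm r) from
    fun r => H _ r rfl
  intro n
  induction n using Nat.strong_induction_on with
  | _ n ih =>
    intro r hr
    have hlow : ∀ r', t r' < t r → cl (σ.symm r') = cl (σ'.symm r') := fun r' h =>
      ih (t r') (by omega) r' rfl
    have k1 := key t j cl ht σ σ' h1 h2 h3 r hlow
    have k2 := key t j cl ht σ' σ h2 h1 h4 r fun r' h => (hlow r' h).symm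
    omega

end Pool.Agent.K7.H84.D4
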