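import Pool.Agent.K7.H80.EC.Stm

set_option autoImplicit false

namespace Pool.Agent.K7.H84.ECASYU

open Finset Filter Pool.Agent.K7.H80.EC

theorem t : StAsyU := by
  intro ε hε k hk hlog
  obtain ⟨η, hη⟩ : ∃ η : ℝ, η = ε / (2 + ε) := ⟨_, rfl⟩
  have h2ε : (0 : ℝ) < 2 + ε := by linarith
  have hη0 : 0 < η := by rw [hη]; positivity
  have hη1 : 1 - η = 2 / (2 + ε) := by rw [hη]; field_simp; ring
  have hr : 1 < (2 : ℝ) ^ η := Real.one_lt_rpow (by norm_num) hη0
  have h1 : ∀ᶠ n : ℕ in atTop, 12 * (2 * (n : ℝ) + 1) ≤ ((2 : ℝ) ^ η) ^ n := by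
    have h := (isLittleO_pow_const_const_pow_of_one_lt (R := ℝ) 1 hr).def
      (show (0 : ℝ) < 1 / 36 by norm_num)
    filter_upwards [h, eventually_ge_atTop 1] with n hn hn1
    rw [pow_one, Real.norm_natCast, Real.norm_of_nonneg (by positivity)] at hn
    have : (1 : ℝ) ≤ n := by exact_mod_cast hn1
    linarith
  have hlog2 : Tendsto (fun d : ℕ => (2 + ε) * Real.logb 2 d) atTop atTop :=
    ((Real.tendsto_logb_atTop (by norm_num)).comp tendsto_natCast_atTop_atTop).const_mul_atTop h2ε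
  have hkt : Tendsto k atTop atTop := by
    have : Tendsto (fun d => (k d : ℝ)) atTop atTop := tendsto_atTop_mono' _ hlog hlog2
    exact tendsto_natCast_atTop_iff.1 this
  have hE : ∀ᶠ d : ℕ in atTop,
      2 * (d : ℝ) ≤ (2 : ℝ) ^ (k d - 1) / (3 * d * (2 * k d + 1)) := by
    filter_upwards [hlog, hkt.eventually h1, eventually_ge_atTop 1, hkt.eventually_ge_atTop 1]
      with d hd1 hd2 hd3 hd4
    have hd0 : (0 : ℝ) < d := by exact_mod_cast hd3
    have hk0 : (0 : ℝ) ≤ k d := Nat.cast_nonneg _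
    have e1 : (d : ℝ) ^ 2 ≤ (2 : ℝ) ^ ((1 - η) * k d) := by
      have h3 : Real.logb 2 d ≤ k d / (2 + ε) := by
        rw [le_div_iff₀ h2ε]; linarith
      have h4 : (d : ℝ) ≤ (2 : ℝ) ^ ((k d : ℝ) / (2 + ε)) := by
        rwa [Real.logb_le_iff_le_rpow (by norm_num) hd0] at h3
      calc (d : ℝ) ^ 2 ≤ ((2 : ℝ) ^ ((k d : ℝ) / (2 + ε))) ^ 2 := by gcongr
        _ = (2 : ℝ) ^ ((1 - η) * k d) := by
          rw [← Real.rpow_natCast, ← Real.rpow_mul (by norm_num), hη1]
          congr 1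
          push_cast
          field_simp
    have e2 : ((2 : ℝ) ^ η) ^ k d = (2 : ℝ) ^ (η * k d) := by
      rw [Real.rpow_mul (by norm_num), Real.rpow_natCast]
    have e3 : (2 : ℝ) ^ k d = (2 : ℝ) ^ (η * k d) * (2 : ℝ) ^ ((1 - η) * k d) := by
      rw [← Real.rpow_add (by norm_num), ← Real.rpow_natCast]
      congr 1
      ring
    have e4 : 12 * (2 * (k d : ℝ) + 1) * (d : ℝ) ^ 2 ≤ (2 : ℝ) ^ k d := by
      rw [e3]
      rw [e2] at hd2
      gcongr
    have e5 : (2 : ℝ) ^ k d = 2 * (2 : ℝ) ^ (k d - 1) := by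
      rw [← pow_succ']
      congr 1
      omega
    rw [le_div_iff₀ (by positivity)]
    rw [e5] at e4
    nlinarith
  have hexp : (4 : ℝ) * Real.exp (-2) < 1 := by
    have h3 : (2 : ℝ) + 1 < Real.exp 2 := Real.add_one_lt_exp (by norm_num)
    have h4 : Real.exp 2 = Real.exp 1 * Real.exp 1 := by rw [← Real.exp_add]; norm_num
    have h5 : (2.7 : ℝ) < Real.exp 1 := by
      have := Real.exp_one_gt_d9
      linarith
    have h6 : (4 : ℝ) < Real.exp 2 := by rw [h4]; nlinarith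
    rw [Real.exp_neg]
    rw [← div_eq_mul_inv, div_lt_one (by positivity)]
    exact h6
  have hlim : Tendsto (fun d : ℕ => ((4 : ℝ) * Real.exp (-2)) ^ d) atTop (nhds 0) :=
    tendsto_pow_atTop_nhds_zero_of_lt_one (by positivity) hexp
  refine squeeze_zero' (Eventually.of_forall fun d => by positivity) ?_ hlim
  filter_upwards [hE] with d hd
  rw [mul_pow, ← Real.exp_nat_mul]
  gcongr
  linarith

end Pool.Agent.K7.H84.ECASYU
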