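import Pool.Agent.K7.H81.PD.Stm2

set_option autoImplicit false

noncomputable section

namespace Pool.Agent.K7.H84.PDON1

open MeasureTheory Filter Topology Set Pool.Agent.K7.H81.PD
open scoped ContDiff

lemma pd_comp (G : ℝ → ℝ) (hG : Differentiable ℝ G) (x : E 1) :
    pd 0 (fun x : E 1 => G (x 0)) x = deriv G (x 0) := by
  have h1 : HasFDerivAt (fun x : E 1 => x 0) (EuclideanSpace.proj (0 : Fin 1) : E 1 →L[ℝ] ℝ) x :=
    (EuclideanSpace.proj (0 : Fin 1) : E 1 →L[ℝ] ℝ).hasFDerivAt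
  have h2 := (hG (x 0)).hasDerivAt.comp_hasFDerivAt x h1
  have h3 : fderiv ℝ (fun x : E 1 => G (x 0)) x =
      deriv G (x 0) • (EuclideanSpace.proj (0 : Fin 1) : E 1 →L[ℝ] ℝ) := h2.fderiv
  unfold pd
  rw [h3]
  simp

lemma smooth_int {ψ : ℝ → ℝ} (hψ : ContDiff ℝ ∞ ψ) (a : ℝ) :
    ContDiff ℝ ∞ (fun t => ∫ s in a..t, ψ s) ∧ ∀ t, HasDerivAt (fun t => ∫ s in a..t, ψ s) (ψ t) t := by
  have h1 : ∀ t, HasDerivAt (fun t => ∫ s in a..t, ψ s) (ψ t) t := fun t =>
    (hψ.continuous.integral_hasStrictDerivAt a t).hasDerivAt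
  refine ⟨?_, h1⟩
  rw [contDiff_infty_iff_deriv]
  refine ⟨fun t => (h1 t).differentiableAt, ?_⟩
  have h2 : deriv (fun t => ∫ s in a..t, ψ s) = ψ := funext fun t => (h1 t).deriv
  rw [h2]
  exact hψ

theorem t : StOn1 := by
  intro a b hab φ hφ
  obtain ⟨hφ1, -, -⟩ := hφ
  obtain ⟨ψ, hψ⟩ : ∃ ψ : ℝ → ℝ, ψ = fun t => φ (EuclideanSpace.single (0 : Fin 1) t) := ⟨_, rfl⟩
  have hsing : ∀ x : E 1, EuclideanSpace.single (0 : Fin 1) (x 0) = x := by
    intro x
    ext i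
    rw [Fin.eq_zero i]
    simp
  have hψx : ∀ x : E 1, ψ (x 0) = φ x := by
    intro x
    rw [hψ]
    change φ (EuclideanSpace.single (0 : Fin 1) (x 0)) = φ x
    rw [hsing]
  have hψs : ContDiff ℝ ∞ ψ := by
    rw [hψ]
    refine hφ1.comp ?_
    have : (fun t : ℝ => (EuclideanSpace.single (0 : Fin 1) t : E 1)) =
        fun t : ℝ => t • (EuclideanSpace.single (0 : Fin 1) (1 : ℝ) : E 1) := by
      funext t
      ext i
      rw [Fin.eq_zero i]
      simp
    change ContDiff ℝ ∞ (fun t : ℝ => (EuclideanSpace.single (0 : Fin 1) t : E 1))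
    rw [this]
    exact contDiff_id.smul contDiff_const
  obtain ⟨h1, h1'⟩ := smooth_int hψs a
  obtain ⟨F1, hF1⟩ : ∃ F1 : ℝ → ℝ, F1 = fun t => ∫ s in a..t, ψ s := ⟨_, rfl⟩
  rw [← hF1] at h1 h1'
  obtain ⟨h2, h2'⟩ := smooth_int h1 a
  obtain ⟨F, hF⟩ : ∃ F : ℝ → ℝ, F = fun t => ∫ s in a..t, F1 s := ⟨_, rfl⟩
  rw [← hF] at h2 h2'
  have hFa : F a = 0 := by rw [hF]; exact intervalIntegral.integral_same
  obtain ⟨G, hG⟩ : ∃ G : ℝ → ℝ, G = fun t => -F t + F b / (b - a) * (t - a) := ⟨_, rfl⟩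
  have hG1 : ∀ t, HasDerivAt G (-F1 t + F b / (b - a)) t := by
    intro t
    rw [hG]
    have h3 := (h2' t).neg.add (((hasDerivAt_id t).sub_const a).const_mul (F b / (b - a)))
    rw [mul_one] at h3
    exact h3
  have hdG : deriv G = fun t => -F1 t + F b / (b - a) := funext fun t => (hG1 t).deriv
  have hG2 : ∀ t, HasDerivAt (deriv G) (-ψ t) t := by
    intro t
    rw [hdG]
    exact (h1' t).neg.add_const _
  have hGs : ContDiff ℝ ∞ G := by
    rw [hG]
    exact h2.neg.add (contDiff_const.mul (contDiff_id.sub contDiff_const))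
  refine ⟨fun x => G (x 0), ⟨?_, ?_⟩, ?_⟩
  · exact hGs.comp (EuclideanSpace.proj (0 : Fin 1) : E 1 →L[ℝ] ℝ).contDiff
  · intro x hx
    have hc : Continuous fun x : E 1 => x 0 :=
      (EuclideanSpace.proj (0 : Fin 1) : E 1 →L[ℝ] ℝ).continuous
    have hI : Itv a b = (fun x : E 1 => x 0) ⁻¹' (Ioo a b) := rfl
    rw [hI] at hx
    have h3 := hc.frontier_preimage_subset (Ioo a b) hx
    rw [frontier_Ioo hab] at h3
    have hba : b - a ≠ 0 := by linarith
    rcases h3 with h3 | h3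
    · change G (x 0) = 0
      have h4 : x 0 = a := h3
      rw [h4, hG]
      simp [hFa]
    · change G (x 0) = 0
      have h4 : x 0 = b := h3
      rw [h4, hG]
      change -F b + F b / (b - a) * (b - a) = 0
      rw [div_mul_cancel₀ _ hba]
      ring
  · intro x _
    unfold lap
    rw [Fin.sum_univ_one]
    have h3 : pd 0 (fun x : E 1 => G (x 0)) = fun x : E 1 => deriv G (x 0) := by
      funext y
      exact pd_comp G (fun t => (hG1 t).differentiableAt) y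
    rw [h3, pd_comp (deriv G) (fun t => (hG2 t).differentiableAt), (hG2 (x 0)).deriv, hψx]

end Pool.Agent.K7.H84.PDON1
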