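import Pool.Agent.K7.H16.SG.Stm

set_option autoImplicit false

open Finset

namespace Pool.Agent.K7.H84.SGNUM

open Pool.Agent.K7.H16.SG

/-- the convolution -/
def cv (m : ℕ) : ℚ := ∑ i ∈ range (m + 1), c i * c (m - i)

lemma c_zero : c 0 = 1 := by rw [c]

lemma c_succ (m : ℕ) : c (m + 1) = min (cv m)
    ((1 + 1 / ((m : ℚ) + 1)) / 2 * cv m + c m - c m / ((m : ℚ) + 1)) := by
  have h : (∑ i : Fin (m + 1), c i * c (m - i)) = cv m := by
    rw [cv, Finset.sum_range]
  rw [c, h]

lemma c_nonneg : ∀ n : ℕ, 0 ≤ c n := by
  intro n
  induction n using Nat.strong_induction_on with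
  | _ n ih =>
    cases n with
    | zero => rw [c_zero]; norm_num
    | succ m =>
      rw [c_succ]
      have h1 : 0 ≤ cv m := by
        rw [cv]
        refine sum_nonneg fun i hi => mul_nonneg (ih i ?_) (ih (m - i) ?_)
        · rw [mem_range] at hi; omega
        · omega
      have h2 := ih m (by omega)
      refine le_min h1 ?_
      have h3 : c m / ((m : ℚ) + 1) ≤ c m := by
        rw [div_le_iff₀ (by positivity)]
        have : (0 : ℚ) ≤ m := Nat.cast_nonneg m
        nlinarith
      have h4 : 0 ≤ (1 + 1 / ((m : ℚ) + 1)) / 2 * cv m := by positivity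
      linarith

/-- `n! c_n` -/
def F (n : ℕ) : ℚ := (n.factorial : ℚ) * c n

lemma F_nonneg (n : ℕ) : 0 ≤ F n := mul_nonneg (Nat.cast_nonneg _) (c_nonneg n)

lemma choose_F (k p : ℕ) (hp : p ≤ k) : ((k.choose p : ℕ) : ℚ) * p.factorial * (k - p).factorial =
    k.factorial := by
  exact_mod_cast Nat.choose_mul_factorial_mul_factorial hp

lemma symm_sum (m : ℕ) : ∑ p ∈ range (m + 1), (p : ℚ) * (c p * c (m - p)) = m / 2 * cv m ∧
    ∑ p ∈ range (m + 1), ((m - p : ℕ) : ℚ) * (c p * c (m - p)) = m / 2 * cv m := by
  have h1 : ∑ p ∈ range (m + 1), ((m - p : ℕ) : ℚ) * (c p * c (m - p)) =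
      ∑ p ∈ range (m + 1), (p : ℚ) * (c p * c (m - p)) := by
    rw [← Finset.sum_range_reflect]
    refine sum_congr rfl fun p hp => ?_
    rw [mem_range] at hp
    have e1 : m + 1 - 1 - p = m - p := by omega
    have e2 : m - (m - p) = p := by omega
    rw [e1, e2, mul_comm (c (m - p))]
  have h2 : ∑ p ∈ range (m + 1), (p : ℚ) * (c p * c (m - p)) +
      ∑ p ∈ range (m + 1), ((m - p : ℕ) : ℚ) * (c p * c (m - p)) = m * cv m := by
    rw [← sum_add_distrib, cv, mul_sum]
    refine sum_congr rfl fun p hp => ?_
    rw [mem_range] at hp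
    rw [Nat.cast_sub (by omega)]
    ring
  constructor <;> linarith

theorem t (h1 : StRec1) (h2 : StRec2) (hW : StW) : StNum := by
  obtain ⟨-, -, -, hD0⟩ := hW
  suffices H : ∀ (n : ℕ) (A : Finset ℕ), A.card = n → (D A : ℚ) ≤ F n by
    intro A
    exact H _ A rfl
  intro n
  induction n using Nat.strong_induction_on with
  | _ n ih =>
    intro A hA
    cases n with
    | zero =>
      rw [Finset.card_eq_zero] at hA
      rw [hA, hD0, F, c_zero]
      norm_num
    | succ m =>
      -- the first bound
      have hne : A.Nonempty := by rw [← Finset.card_pos]; omega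
      obtain ⟨M, hM⟩ : ∃ M, M = A.max' hne := ⟨_, rfl⟩
      have hMA : M ∈ A := by rw [hM]; exact A.max'_mem hne
      obtain ⟨A', hA'⟩ : ∃ A', A' = A.erase M := ⟨_, rfl⟩
      have hAi : A = insert M A' := by rw [hA', insert_erase hMA]
      have hlt : ∀ a ∈ A', a < M := by
        intro a ha
        rw [hA', mem_erase] at ha
        rw [hM]
        refine lt_of_le_of_ne (A.le_max' a ha.2) ?_
        rw [← hM]
        exact ha.1
      have hcA' : A'.card = m := by
        rw [hA', card_erase_of_mem hMA, hA]
        rfl
      have b1 : (D A : ℚ) ≤ ((m + 1).factorial : ℚ) * cv m := by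
        have h3 : ((D A : ℕ) : ℚ) ≤ (((A'.card + 1) * ∑ B ∈ A'.powerset, D B * D (A' \ B) : ℕ) : ℚ) := by
          rw [hAi]
          exact_mod_cast h1 A' M hlt
        refine h3.trans ?_
        push_cast
        rw [hcA']
        have h4 : ∑ B ∈ A'.powerset, (D B : ℚ) * D (A' \ B) ≤
            ∑ B ∈ A'.powerset, F B.card * F (m - B.card) := by
          refine sum_le_sum fun B hB => ?_
          rw [mem_powerset] at hB
          have hc1 : B.card ≤ m := by rw [← hcA']; exact card_le_card hB
          have hc2 : (A' \ B).card = m - B.card := by rw [card_sdiff_of_subset hB, hcA']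
          exact mul_le_mul (ih _ (by omega) B rfl) (ih _ (by omega) _ hc2) (Nat.cast_nonneg _)
            (F_nonneg _)
        have h5 : ∑ B ∈ A'.powerset, F B.card * F (m - B.card) = (m.factorial : ℚ) * cv m := by
          rw [Finset.sum_powerset_apply_card (fun p => F p * F (m - p)), hcA', cv, mul_sum]
          refine sum_congr rfl fun p hp => ?_
          rw [mem_range] at hp
          rw [nsmul_eq_mul, ← choose_F m p (by omega), F, F]
          ring
        rw [h5] at h4
        rw [Nat.factorial_succ]
        push_cast
        rw [mul_assoc]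
        exact mul_le_mul_of_nonneg_left h4 (by positivity)
      rw [F, c_succ]
      rw [mul_min_of_nonneg _ _ (Nat.cast_nonneg _)]
      refine le_min b1 ?_
      cases m with
      | zero =>
        refine b1.trans (le_of_eq ?_)
        rw [c_zero]
        norm_num
      | succ k =>
        have hne' : A'.Nonempty := by rw [← Finset.card_pos]; omega
        obtain ⟨M', hM'⟩ : ∃ M', M' = A'.max' hne' := ⟨_, rfl⟩
        have hMA' : M' ∈ A' := by rw [hM']; exact A'.max'_mem hne'
        obtain ⟨A'', hA''⟩ : ∃ A'', A'' = A'.erase M' := ⟨_, rfl⟩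
        have hAi' : A' = insert M' A'' := by rw [hA'', insert_erase hMA']
        have hlt' : ∀ a ∈ A'', a < M' := by
          intro a ha
          rw [hA'', mem_erase] at ha
          rw [hM']
          refine lt_of_le_of_ne (A'.le_max' a ha.2) ?_
          rw [← hM']
          exact ha.1
        have hcA'' : A''.card = k := by
          rw [hA'', card_erase_of_mem hMA', hcA']
          rfl
        have hnot : ∀ B : Finset ℕ, B ⊆ A'' → M' ∉ B := fun B hB hm =>
          lt_irrefl _ (hlt' M' (hB hm))
        have h3 : ((D A : ℕ) : ℚ) ≤ ((∑ B ∈ A''.powerset.erase A'', D (insert M' B) * D (A'' \ B) +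
            (A''.card + 2) * (∑ B ∈ A''.powerset, D B * D (insert M' (A'' \ B)) +
              D (insert M' A'')) : ℕ) : ℚ) := by
          rw [hAi, hAi']
          exact_mod_cast h2 A'' M' M hlt' (hlt M' hMA')
        refine h3.trans ?_
        push_cast
        rw [hcA'']
        have s1 : ∑ B ∈ A''.powerset.erase A'', (D (insert M' B) : ℚ) * D (A'' \ B) ≤
            (k.factorial : ℚ) * (((k + 1 : ℕ) : ℚ) / 2 * cv (k + 1)) - F (k + 1) := by
          have h4 : ∑ B ∈ A''.powerset.erase A'', (D (insert M' B) : ℚ) * D (A'' \ B) ≤
              ∑ B ∈ A''.powerset.erase A'', F (B.card + 1) * F (k - B.card) := by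
            refine sum_le_sum fun B hB => ?_
            rw [mem_erase, mem_powerset] at hB
            have hc1 : B.card < k := by
              rw [← hcA'']
              exact card_lt_card (lt_of_le_of_ne hB.2 hB.1)
            have hc2 : (A'' \ B).card = k - B.card := by rw [card_sdiff_of_subset hB.2, hcA'']
            have hc3 : (insert M' B).card = B.card + 1 := card_insert_of_notMem (hnot B hB.2)
            exact mul_le_mul (ih _ (by omega) _ hc3) (ih _ (by omega) _ hc2) (Nat.cast_nonneg _)
              (F_nonneg _)
          refine h4.trans (le_of_eq ?_)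
          rw [Finset.sum_erase_eq_sub (mem_powerset_self A''),
            Finset.sum_powerset_apply_card (fun p => F (p + 1) * F (k - p)), hcA'', Nat.sub_self,
            ← (symm_sum (k + 1)).1, Finset.sum_range_succ' _ (k + 1), mul_add, mul_sum]
          have e0 : F 0 = 1 := by rw [F, c_zero]; norm_num
          rw [e0, mul_one, Nat.cast_zero, zero_mul, mul_zero, add_zero]
          congr 1
          refine sum_congr rfl fun p hp => ?_
          rw [mem_range] at hp
          have e1 : k + 1 - (p + 1) = k - p := by omega
          rw [nsmul_eq_mul, ← choose_F k p (by omega), F, F, Nat.factorial_succ, e1]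
          push_cast
          ring
        have s2 : ∑ B ∈ A''.powerset, (D B : ℚ) * D (insert M' (A'' \ B)) ≤
            (k.factorial : ℚ) * (((k + 1 : ℕ) : ℚ) / 2 * cv (k + 1)) := by
          have h4 : ∑ B ∈ A''.powerset, (D B : ℚ) * D (insert M' (A'' \ B)) ≤
              ∑ B ∈ A''.powerset, F B.card * F (k - B.card + 1) := by
            refine sum_le_sum fun B hB => ?_
            rw [mem_powerset] at hB
            have hc1 : B.card ≤ k := by rw [← hcA'']; exact card_le_card hB
            have hc2 : (insert M' (A'' \ B)).card = k - B.card + 1 := by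
              rw [card_insert_of_notMem (hnot _ sdiff_subset), card_sdiff_of_subset hB, hcA'']
            exact mul_le_mul (ih _ (by omega) _ rfl) (ih _ (by omega) _ hc2) (Nat.cast_nonneg _)
              (F_nonneg _)
          refine h4.trans (le_of_eq ?_)
          rw [Finset.sum_powerset_apply_card (fun p => F p * F (k - p + 1)), hcA'',
            ← (symm_sum (k + 1)).2, Finset.sum_range_succ _ (k + 1), mul_add, mul_sum,
            Nat.sub_self, Nat.cast_zero, zero_mul, mul_zero, add_zero]
          refine sum_congr rfl fun p hp => ?_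
          rw [mem_range] at hp
          have e1 : k + 1 - p = k - p + 1 := by omega
          rw [nsmul_eq_mul, ← choose_F k p (by omega), F, F, Nat.factorial_succ, e1]
          push_cast
          ring
        have s3 : (D (insert M' A'') : ℚ) ≤ F (k + 1) := by
          refine ih (k + 1) (by omega) _ ?_
          rw [card_insert_of_notMem (hnot _ subset_rfl), hcA'']
        have hk2 : (0 : ℚ) ≤ (k : ℚ) + 2 := by positivity
        have s4 := mul_le_mul_of_nonneg_left (add_le_add s2 s3) hk2
        refine (add_le_add s1 s4).trans (le_of_eq ?_)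
        rw [F]
        have f1 : ((k + 1).factorial : ℚ) = ((k : ℚ) + 1) * k.factorial := by
          rw [Nat.factorial_succ]; push_cast; ring
        have f2 : ((k + 1 + 1).factorial : ℚ) = ((k : ℚ) + 2) * (((k : ℚ) + 1) * k.factorial) := by
          rw [Nat.factorial_succ, ← f1]; push_cast; ring
        rw [f1, f2]
        have hk3 : (k : ℚ) + 1 + 1 ≠ 0 := by positivity
        push_cast
        field_simp
        ring

end Pool.Agent.K7.H84.SGNUM
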